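import Mathlib
import Pool.Agent.Helper6.ER.Defs
import Pool.Agent.Helper13.Om.BT

/-!
# Module ER-11: capacity of a residue class (upper bound sieve)
-/

namespace Pool.Agent.Helper6.ER

open Finset

namespace Cap

lemma one_sub_inv_ge (q : ℕ) (hq : q.Prime) : Real.exp (-(2 * (1 / (q : ℝ)))) ≤ 1 - 1 / (q : ℝ) := by
  have h2 : (2 : ℝ) ≤ q := by exact_mod_cast hq.two_le
  have hq0 : (0 : ℝ) < q := by linarith
  have hx : 1 / (q : ℝ) ≤ 1 / 2 := one_div_le_one_div_of_le (by norm_num) h2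
  have hx0 : 0 < 1 / (q : ℝ) := by positivity
  set y := 1 / (q : ℝ) with hy
  have h3 := Real.add_one_le_exp (2 * y)
  rw [Real.exp_neg, inv_le_comm₀ (Real.exp_pos _) (by linarith)]
  refine le_trans ?_ h3
  rw [inv_le_comm₀ (by linarith) (by linarith)]
  rw [inv_le_iff_one_le_mul₀ (by linarith)]
  nlinarith

lemma prod_sdiff_le (N : ℕ) (hN : 2 ≤ N) (Dx : Finset ℕ)
    (hsum : ∑ q ∈ Dx, (1 : ℝ) / q ≤ 1) :
    ∏ q ∈ N.primesBelow \ Dx, (1 - 1 / (q : ℝ)) ≤ Real.exp 2 / Real.log N := by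
  classical
  have hmer := Helper13.Om.mertens_prod N hN
  have hlog : 0 < Real.log N := Real.log_pos (by exact_mod_cast hN)
  have hfac : ∀ r : ℕ, r.Prime → (1 : ℝ) / 2 ≤ 1 - 1 / (r : ℝ) := by
    intro r hr
    have h2 : (2 : ℝ) ≤ r := by exact_mod_cast hr.two_le
    have : 1 / (r : ℝ) ≤ 1 / 2 := one_div_le_one_div_of_le (by norm_num) h2
    linarith
  have e1 : ∏ q ∈ N.primesBelow, (1 - 1 / (q : ℝ)) =
      (∏ q ∈ N.primesBelow \ Dx, (1 - 1 / (q : ℝ))) *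
        ∏ q ∈ N.primesBelow ∩ Dx, (1 - 1 / (q : ℝ)) := by
    rw [← Finset.prod_inter_mul_prod_sdiff N.primesBelow Dx, mul_comm]
  have h1 : Real.exp (-2) ≤ ∏ q ∈ N.primesBelow ∩ Dx, (1 - 1 / (q : ℝ)) := by
    have h2 : ∏ q ∈ N.primesBelow ∩ Dx, Real.exp (-(2 * (1 / (q : ℝ)))) ≤
        ∏ q ∈ N.primesBelow ∩ Dx, (1 - 1 / (q : ℝ)) := by
      refine Finset.prod_le_prod (fun q _ => (Real.exp_pos _).le) fun q hq => ?_
      exact one_sub_inv_ge q (Nat.prime_of_mem_primesBelow (Finset.mem_of_mem_inter_left hq))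
    refine le_trans ?_ h2
    rw [← Real.exp_sum]
    apply Real.exp_le_exp.2
    rw [Finset.sum_neg_distrib, ← Finset.mul_sum]
    have h3 : ∑ q ∈ N.primesBelow ∩ Dx, 1 / (q : ℝ) ≤ ∑ q ∈ Dx, 1 / (q : ℝ) :=
      Finset.sum_le_sum_of_subset_of_nonneg Finset.inter_subset_right
        (fun q _ _ => by positivity)
    linarith
  have hA : 0 ≤ ∏ q ∈ N.primesBelow \ Dx, (1 - 1 / (q : ℝ)) :=
    Finset.prod_nonneg fun r hr => by
      have := hfac r (Nat.prime_of_mem_primesBelow (Finset.mem_sdiff.1 hr).1)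
      linarith
  rw [e1] at hmer
  have h4 : (∏ q ∈ N.primesBelow \ Dx, (1 - 1 / (q : ℝ))) * Real.exp (-2) ≤ 1 / Real.log N :=
    le_trans (mul_le_mul_of_nonneg_left h1 hA) hmer
  rw [Real.exp_neg, ← div_eq_mul_inv, div_le_iff₀ (Real.exp_pos 2)] at h4
  refine h4.trans (le_of_eq ?_)
  ring

end Cap

theorem capacity : ∃ C : ℝ, 0 < C ∧ ∀ (x k p : ℕ) (Dx : Finset ℕ) (a : ℕ → ℤ), p ∈ Dx →
    (∀ q ∈ Dx, q.Prime ∧ q ≤ x) → ∑ q ∈ Dx, (1 : ℝ) / q ≤ 1 → 2 * x ≤ k → k ≤ x ^ 2 →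
    (((Icc 1 k).filter (fun t : ℕ => (p : ℤ) ∣ (t : ℤ) - a p ∧
      ∀ q ∈ PR x \ Dx, ¬ (q : ℤ) ∣ (t : ℤ) - a q)).card : ℝ) ≤
      C * ((k : ℝ) / p) / Real.log ((k : ℝ) / p) := by
  classical
  refine ⟨640 * Real.exp 2 * Real.exp (Helper13.Om.Kt 1) + 8, by positivity, ?_⟩
  intro x k p Dx a hpD hD hsum h2x hkx
  obtain ⟨hp, hpx⟩ := hD p hpD
  have hp0 : (0 : ℝ) < p := by exact_mod_cast hp.pos
  -- the natural quotient
  set n := k / p with hn
  have hn2 : 2 ≤ n := by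
    rw [hn, Nat.le_div_iff_mul_le hp.pos]
    calc 2 * p ≤ 2 * x := by omega
      _ ≤ k := h2x
  set e := Nat.log 2 n with he
  have he1 : 1 ≤ e := by
    rw [he]
    exact Nat.log_pos (by norm_num) hn2
  have hen1 : 2 ^ e ≤ n := Nat.pow_log_le_self 2 (by omega)
  have hen2 : n < 2 ^ (e + 1) := Nat.lt_pow_succ_log_self (by norm_num) n
  set κ : ℝ := (k : ℝ) / p with hκ
  have hnκ : (n : ℝ) ≤ κ := Nat.cast_div_le
  have hκn : κ < 2 ^ (e + 1) := by
    rw [hκ, div_lt_iff₀ hp0]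
    have h1 : k < p * (n + 1) := by
      rw [hn, mul_comm]
      exact Nat.lt_mul_of_div_lt (Nat.lt_succ_self _) hp.pos
    have h2 : k < 2 ^ (e + 1) * p := by
      calc k < p * (n + 1) := h1
        _ ≤ p * 2 ^ (e + 1) := Nat.mul_le_mul_left _ hen2
        _ = 2 ^ (e + 1) * p := mul_comm _ _
    exact_mod_cast h2
  have heκ : (2 : ℝ) ^ e ≤ κ := le_trans (by exact_mod_cast hen1) hnκ
  have hκ2 : 2 ≤ κ := le_trans (by exact_mod_cast hn2) hnκ
  have hlogκ : 0 < Real.log κ := Real.log_pos (by linarith)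
  have heR : (0 : ℝ) < e := by exact_mod_cast he1
  have heR1 : (1 : ℝ) ≤ e := by exact_mod_cast he1
  have hlog2 : (1 : ℝ) / 2 ≤ Real.log 2 := by
    have := Real.log_two_gt_d9
    linarith
  have hlog2' : Real.log 2 ≤ 1 := by
    have := Real.log_two_lt_d9
    linarith
  have hlogκe : Real.log κ ≤ 2 * e := by
    have h1 : Real.log κ ≤ Real.log (2 ^ (e + 1)) := Real.log_le_log (by linarith) hκn.le
    rw [Real.log_pow] at h1
    push_cast at h1
    nlinarith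
  -- sieving level
  set E' := e / 160 with hE'
  have hE'x : 2 ^ (E' + 1) ≤ x := by
    have h1 : 2 ^ (e + 1) ≤ x ^ 2 := by
      calc 2 ^ (e + 1) = 2 ^ e * 2 := pow_succ _ _
        _ ≤ n * p := Nat.mul_le_mul hen1 hp.two_le
        _ ≤ k := Nat.div_mul_le_self _ _
        _ ≤ x ^ 2 := hkx
    have h2 : (2 ^ (E' + 1)) ^ 2 ≤ x ^ 2 := by
      calc (2 ^ (E' + 1)) ^ 2 = 2 ^ ((E' + 1) * 2) := by rw [← pow_mul]
        _ ≤ 2 ^ (e + 1) := Nat.pow_le_pow_right (by norm_num) (by omega)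
        _ ≤ x ^ 2 := h1
    exact (Nat.pow_le_pow_iff_left (by norm_num)).1 h2
  set P' := (2 ^ (E' + 1)).primesBelow \ Dx with hP'
  have hP'p : ∀ q ∈ P', q.Prime := by
    intro q hq
    exact Nat.prime_of_mem_primesBelow (Finset.mem_sdiff.1 hq).1
  have hP'lt : ∀ q ∈ P', q < 2 ^ (E' + 1) := by
    intro q hq
    exact Nat.lt_of_mem_primesBelow (Finset.mem_sdiff.1 hq).1
  have hP'D : ∀ q ∈ P', q ∉ Dx := by
    intro q hq
    exact (Finset.mem_sdiff.1 hq).2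
  -- residues
  set Z : ℕ → Finset ℕ := fun q => {(a q % (q : ℤ)).toNat} with hZ
  have hZr : ∀ q : ℕ, q.Prime → Z q ⊆ Finset.range q := by
    intro q hq y hy
    rw [hZ, Finset.mem_singleton] at hy
    have h1 := Int.emod_lt_of_pos (a q) (by exact_mod_cast hq.pos : (0 : ℤ) < q)
    have h2 := Int.emod_nonneg (a q) (by exact_mod_cast hq.ne_zero : (q : ℤ) ≠ 0)
    rw [Finset.mem_range]
    omega
  have hZm : ∀ (q : ℕ), q.Prime → ∀ t : ℕ, (t % q ∈ Z q ↔ (q : ℤ) ∣ (t : ℤ) - a q) := by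
    intro q hq t
    rw [hZ, Finset.mem_singleton]
    have h2 := Int.emod_nonneg (a q) (by exact_mod_cast hq.ne_zero : (q : ℤ) ≠ 0)
    have h3 : (t % q = (a q % (q : ℤ)).toNat) ↔ ((t : ℤ) % q = a q % (q : ℤ)) := by
      constructor
      · intro h
        have h4 : ((t % q : ℕ) : ℤ) = ((a q % (q : ℤ)).toNat : ℤ) := by rw [h]
        rw [Int.toNat_of_nonneg h2] at h4
        push_cast at h4
        exact h4
      · intro h
        rw [← h]
        have : ((t : ℤ) % q) = ((t % q : ℕ) : ℤ) := by push_cast; rfl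
        rw [this, Int.toNat_natCast]
    rw [h3, eq_comm]
    exact Int.modEq_iff_dvd
  have h := Helper13.Om.sieve_upper P' {p} (by
      rw [Finset.disjoint_singleton_left]
      intro h
      exact hP'D p h hpD) hP'p (by
      intro q hq
      rw [Finset.mem_singleton.mp hq]
      exact hp) 1 (fun q hq => (hP'p q hq).one_lt) E' (by
      intro q hq
      have h1 := hP'lt q hq
      have h2 := Nat.log_lt_of_lt_pow (hP'p q hq).pos.ne' h1
      omega) Z (by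
      intro q hq
      exact ⟨hZr q (hP'p q hq), by simp [hZ]⟩) (by
      intro q hq
      rw [Finset.mem_singleton.mp hq]
      exact hZr p hp) 1 le_rfl k
  have hcount : ((Icc 1 k).filter (fun t : ℕ => (p : ℤ) ∣ (t : ℤ) - a p ∧
      ∀ q ∈ PR x \ Dx, ¬ (q : ℤ) ∣ (t : ℤ) - a q)).card ≤
      ((Finset.Icc 1 k).filter
        (fun m => (∀ r ∈ ({p} : Finset ℕ), m % r ∈ Z r) ∧ ∀ r ∈ P', m % r ∉ Z r)).card := by
    apply Finset.card_le_card
    intro t ht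
    rw [Finset.mem_filter] at ht ⊢
    obtain ⟨h1, h2, h3⟩ := ht
    refine ⟨h1, ?_, ?_⟩
    · intro r hr
      rw [Finset.mem_singleton.mp hr, hZm p hp]
      exact h2
    · intro r hr
      rw [hZm r (hP'p r hr)]
      apply h3
      rw [Finset.mem_sdiff, mem_PR]
      exact ⟨⟨(hP'lt r hr).le.trans hE'x, hP'p r hr⟩, hP'D r hr⟩
  have hcountR : (((Icc 1 k).filter (fun t : ℕ => (p : ℤ) ∣ (t : ℤ) - a p ∧
      ∀ q ∈ PR x \ Dx, ¬ (q : ℤ) ∣ (t : ℤ) - a q)).card : ℝ) ≤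
      (((Finset.Icc 1 k).filter
        (fun m => (∀ r ∈ ({p} : Finset ℕ), m % r ∈ Z r) ∧ ∀ r ∈ P', m % r ∉ Z r)).card : ℝ) := by
    exact_mod_cast hcount
  refine hcountR.trans (h.trans ?_)
  have e1 : ∏ r ∈ ({p} : Finset ℕ), ((Z r).card : ℝ) / r = 1 / p := by
    rw [Finset.prod_singleton]
    simp [hZ]
  have e2 : ∏ r ∈ ({p} : Finset ℕ), ((Z r).card : ℝ) = 1 := by
    rw [Finset.prod_singleton]
    simp [hZ]
  have e3 : ∏ r ∈ P', (1 - ((Z r).card : ℝ) / r) = ∏ r ∈ P', (1 - 1 / (r : ℝ)) := by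
    refine Finset.prod_congr rfl fun r hr => ?_
    simp [hZ]
  rw [e1, e2, e3]
  have h2E : 2 ≤ 2 ^ (E' + 1) := by
    calc 2 = 2 ^ 1 := by norm_num
      _ ≤ 2 ^ (E' + 1) := Nat.pow_le_pow_right (by norm_num) (by omega)
  have hprod := Cap.prod_sdiff_le (2 ^ (E' + 1)) h2E Dx hsum
  rw [← hP'] at hprod
  have hlogE : (e : ℝ) / 320 ≤ Real.log ((2 ^ (E' + 1) : ℕ) : ℝ) := by
    push_cast
    rw [Real.log_pow]
    have h1 : e ≤ 160 * (E' + 1) := by omega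
    have h2 : (e : ℝ) ≤ 160 * (E' + 1) := by exact_mod_cast h1
    push_cast
    have h3 : (0 : ℝ) ≤ (E' : ℝ) + 1 := by positivity
    nlinarith
  have he320 : (0 : ℝ) < (e : ℝ) / 320 := by positivity
  have hprod2 : ∏ r ∈ P', (1 - 1 / (r : ℝ)) ≤ 640 * Real.exp 2 / Real.log κ := by
    refine hprod.trans ?_
    have h1 : Real.exp 2 / Real.log ((2 ^ (E' + 1) : ℕ) : ℝ) ≤ Real.exp 2 / ((e : ℝ) / 320) := by
      exact div_le_div_of_nonneg_left (Real.exp_pos 2).le he320 hlogE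
    refine h1.trans ?_
    rw [div_le_div_iff₀ he320 hlogκ]
    have h3 := Real.exp_pos 2
    nlinarith
  -- the error term
  have herr : (2 : ℝ) ^ (20 * E' * (1 + 1)) ≤ 8 * κ / Real.log κ := by
    set m := e / 4 with hm
    have hem : e ≤ 4 * 2 ^ m := by
      have h1 : m + 1 ≤ 2 ^ m := Nat.lt_two_pow_self
      omega
    have hu : 20 * E' * (1 + 1) + m ≤ e := by omega
    have hemR : (e : ℝ) ≤ 4 * 2 ^ m := by exact_mod_cast hem
    rw [le_div_iff₀ hlogκ]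
    calc (2 : ℝ) ^ (20 * E' * (1 + 1)) * Real.log κ ≤ 2 ^ (20 * E' * (1 + 1)) * (2 * (4 * 2 ^ m)) := by
          gcongr
          linarith
      _ = 8 * (2 ^ (20 * E' * (1 + 1) + m)) := by
          rw [pow_add]
          ring
      _ ≤ 8 * (2 ^ e) := by
          gcongr
          norm_num
      _ ≤ 8 * κ := by linarith
  have hmain : (k : ℝ) * (1 / p * ∏ r ∈ P', (1 - 1 / (r : ℝ))) *
      Real.exp (Helper13.Om.Kt 1 / (1 : ℕ)) ≤
      640 * Real.exp 2 * Real.exp (Helper13.Om.Kt 1) * κ / Real.log κ := by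
    push_cast
    rw [div_one]
    have e4 : (k : ℝ) * (1 / p * ∏ r ∈ P', (1 - 1 / (r : ℝ))) =
        κ * ∏ r ∈ P', (1 - 1 / (r : ℝ)) := by
      rw [hκ]
      ring
    rw [e4]
    have h5 := mul_le_mul_of_nonneg_left hprod2 (show (0 : ℝ) ≤ κ by linarith)
    have h6 := mul_le_mul_of_nonneg_right h5 (Real.exp_pos (Helper13.Om.Kt 1)).le
    refine h6.trans (le_of_eq ?_)
    ring
  have e6 : (640 * Real.exp 2 * Real.exp (Helper13.Om.Kt 1) + 8) * κ / Real.log κ =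
      640 * Real.exp 2 * Real.exp (Helper13.Om.Kt 1) * κ / Real.log κ + 8 * κ / Real.log κ := by
    ring
  rw [e6, one_mul]
  linarith

end Pool.Agent.Helper6.ER
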