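import Mathlib
import Pool.Agent.Helper6.ER.Defs

/-!
# Module ER-7: number of solutions of `m p = b` modulo `d`
-/

namespace Pool.Agent.Helper6.ER

open Finset

namespace CE

open ArithmeticFunction in
lemma sum_moebius (k : ℕ) : ∑ e ∈ k.divisors, (ArithmeticFunction.moebius e : ℝ) =
    if k = 1 then 1 else 0 := by
  have h : ((ArithmeticFunction.moebius : ArithmeticFunction ℤ) *
      (ArithmeticFunction.zeta : ArithmeticFunction ℤ)) k = (1 : ArithmeticFunction ℤ) k := by
    rw [ArithmeticFunction.moebius_mul_coe_zeta]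
  rw [ArithmeticFunction.coe_mul_zeta_apply, ArithmeticFunction.one_apply] at h
  have h2 : ((∑ e ∈ k.divisors, ArithmeticFunction.moebius e : ℤ) : ℝ) =
      ((if k = 1 then 1 else 0 : ℤ) : ℝ) := by rw [h]
  push_cast at h2
  exact h2

lemma sum_moebius_div (n : ℕ) (hn : 1 ≤ n) :
    ∑ e ∈ n.divisors, (ArithmeticFunction.moebius e : ℝ) / e = (n.totient : ℝ) / n := by
  have h := (ArithmeticFunction.sum_eq_iff_sum_mul_moebius_eq (R := ℝ)
    (f := fun k => (k.totient : ℝ)) (g := fun k => (k : ℝ))).1 (fun k _ => by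
      have := Nat.sum_totient k
      exact_mod_cast this) n hn
  rw [← h, Finset.sum_div, Nat.sum_divisorsAntidiagonal
    (fun a b => ((ArithmeticFunction.moebius a : ℤ) : ℝ) * (b : ℝ) / (n : ℝ))]
  refine Finset.sum_congr rfl fun e he => ?_
  have he1 : e ∣ n := Nat.dvd_of_mem_divisors he
  have he0 : (e : ℝ) ≠ 0 := by
    have := Nat.pos_of_mem_divisors he
    positivity
  have hn0 : (n : ℝ) ≠ 0 := by positivity
  rw [Nat.cast_div he1 he0]
  field_simp

/-- multiples of `e` in `(M, 2M]` -/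
lemma count_mult (M e : ℕ) (he : 1 ≤ e) :
    |(((Ioc M (2 * M)).filter (fun m => e ∣ m)).card : ℝ) - (M : ℝ) / e| ≤ 1 := by
  have h0 : (0 : ℝ) < e := by exact_mod_cast he
  have h1 : ((Ioc 0 (2 * M)).filter (fun m => e ∣ m)).card =
      ((Ioc 0 M).filter (fun m => e ∣ m)).card + ((Ioc M (2 * M)).filter (fun m => e ∣ m)).card := by
    rw [← Finset.card_union_of_disjoint, ← Finset.filter_union]
    · congr 2
      ext m
      simp only [Finset.mem_union, Finset.mem_Ioc]
      omega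
    · rw [Finset.disjoint_left]
      intro m hm hm2
      simp only [Finset.mem_filter, Finset.mem_Ioc] at hm hm2
      omega
  rw [Nat.Ioc_filter_dvd_card_eq_div, Nat.Ioc_filter_dvd_card_eq_div] at h1
  have h2 : (((Ioc M (2 * M)).filter (fun m => e ∣ m)).card : ℝ) =
      ((2 * M / e : ℕ) : ℝ) - ((M / e : ℕ) : ℝ) := by
    rw [h1]
    push_cast
    ring
  rw [h2]
  have f1 : ((2 * M / e : ℕ) : ℝ) ≤ 2 * (M : ℝ) / e := by
    have := Nat.cast_div_le (α := ℝ) (m := 2 * M) (n := e)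
    push_cast at this
    exact this
  have f2 : ((M / e : ℕ) : ℝ) ≤ (M : ℝ) / e := Nat.cast_div_le
  have g1 : 2 * (M : ℝ) / e < ((2 * M / e : ℕ) : ℝ) + 1 := by
    rw [div_lt_iff₀ h0]
    have := Nat.lt_mul_div_succ (2 * M) he
    have h3 : ((2 * M : ℕ) : ℝ) < ((e * (2 * M / e + 1) : ℕ) : ℝ) := by exact_mod_cast this
    push_cast at h3 ⊢
    nlinarith
  have g2 : (M : ℝ) / e < ((M / e : ℕ) : ℝ) + 1 := by
    rw [div_lt_iff₀ h0]
    have := Nat.lt_mul_div_succ M he
    have h3 : ((M : ℕ) : ℝ) < ((e * (M / e + 1) : ℕ) : ℝ) := by exact_mod_cast this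
    push_cast at h3 ⊢
    nlinarith
  have e1 : 2 * (M : ℝ) / e = (M : ℝ) / e + (M : ℝ) / e := by ring
  rw [abs_le]
  constructor <;> linarith

/-- integers coprime to `n` in `(M, 2M]` -/
lemma count_coprime (M n : ℕ) (hn : 1 ≤ n) :
    |(((Ioc M (2 * M)).filter (fun m => Nat.Coprime m n)).card : ℝ) -
      M * ((n.totient : ℝ) / n)| ≤ n.divisors.card := by
  have h1 : (((Ioc M (2 * M)).filter (fun m => Nat.Coprime m n)).card : ℝ) =
      ∑ e ∈ n.divisors, (ArithmeticFunction.moebius e : ℝ) *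
        (((Ioc M (2 * M)).filter (fun m => e ∣ m)).card : ℝ) := by
    have e1 : (((Ioc M (2 * M)).filter (fun m => Nat.Coprime m n)).card : ℝ) =
        ∑ m ∈ Ioc M (2 * M), if Nat.Coprime m n then (1 : ℝ) else 0 := by
      rw [Finset.sum_boole]
    have e2 : ∀ m ∈ Ioc M (2 * M), (if Nat.Coprime m n then (1 : ℝ) else 0) =
        ∑ e ∈ n.divisors, if e ∣ m then (ArithmeticFunction.moebius e : ℝ) else 0 := by
      intro m hm
      have hm0 : m ≠ 0 := by
        have := (Finset.mem_Ioc.1 hm).1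
        omega
      have e3 := sum_moebius (m.gcd n)
      have e4 : (m.gcd n).divisors = n.divisors.filter (fun e => e ∣ m) := by
        ext e
        simp only [Nat.mem_divisors, Finset.mem_filter, Nat.dvd_gcd_iff]
        constructor
        · rintro ⟨⟨h1, h2⟩, h3⟩
          exact ⟨⟨h2, by omega⟩, h1⟩
        · rintro ⟨⟨h1, h2⟩, h3⟩
          exact ⟨⟨h3, h1⟩, Nat.gcd_ne_zero_left hm0⟩
      rw [e4, Finset.sum_filter] at e3
      rw [e3]
    rw [e1, Finset.sum_congr rfl e2, Finset.sum_comm]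
    refine Finset.sum_congr rfl fun e _ => ?_
    rw [← Finset.sum_filter, Finset.sum_const, nsmul_eq_mul, mul_comm]
  rw [h1, ← sum_moebius_div n hn, Finset.mul_sum, ← Finset.sum_sub_distrib]
  refine (Finset.abs_sum_le_sum_abs _ _).trans ?_
  have h2 : ∀ e ∈ n.divisors, |(ArithmeticFunction.moebius e : ℝ) *
      (((Ioc M (2 * M)).filter (fun m => e ∣ m)).card : ℝ) -
        M * ((ArithmeticFunction.moebius e : ℝ) / e)| ≤ 1 := by
    intro e he
    have e1 : (ArithmeticFunction.moebius e : ℝ) *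
        (((Ioc M (2 * M)).filter (fun m => e ∣ m)).card : ℝ) -
          M * ((ArithmeticFunction.moebius e : ℝ) / e) = (ArithmeticFunction.moebius e : ℝ) *
        ((((Ioc M (2 * M)).filter (fun m => e ∣ m)).card : ℝ) - (M : ℝ) / e) := by ring
    rw [e1, abs_mul]
    have e2 : |(ArithmeticFunction.moebius e : ℝ)| ≤ 1 := by
      have := ArithmeticFunction.abs_moebius_le_one (n := e)
      exact_mod_cast this
    have e3 := count_mult M e (Nat.pos_of_mem_divisors he)
    calc _ ≤ (1 : ℝ) * 1 := mul_le_mul e2 e3 (abs_nonneg _) zero_le_one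
      _ = 1 := one_mul 1
  calc _ ≤ ∑ _e ∈ n.divisors, (1 : ℝ) := Finset.sum_le_sum h2
    _ = _ := by simp

end CE

open CE

/-- ER-7 -/
theorem count_error (M R d b : ℕ) (hR : 1 ≤ R) (hd : 1 ≤ d)
    (hdR : Nat.Coprime d R) (hb : Nat.Coprime b d) (P : Finset ℕ)
    (hP : ∀ p ∈ P, Nat.Coprime p d) :
    |((((MM M R) ×ˢ P).filter (fun t => t.1 * t.2 ≡ b [MOD d])).card : ℝ) -
        (P.card : ℝ) * M * ((R.totient : ℝ) / R) / d| ≤
      (1 / (d.totient : ℝ)) * EC M R P d +
        P.card * (R.divisors.card : ℝ) * ((d.divisors.card : ℝ) / d.totient) := by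
  classical
  have : NeZero d := ⟨by omega⟩
  have hφ : (0 : ℝ) < d.totient := by
    have := Nat.totient_pos.2 hd
    exact_mod_cast this
  have hφC : (d.totient : ℂ) ≠ 0 := by
    have := Nat.totient_pos.2 hd
    exact_mod_cast this.ne'
  have hbu : IsUnit (b : ZMod d) := (ZMod.isUnit_iff_coprime b d).2 hb
  set N : ℕ := (((MM M R) ×ˢ P).filter (fun t => t.1 * t.2 ≡ b [MOD d])).card with hN
  -- orthogonality
  have horth : (d.totient : ℂ) * (N : ℂ) = ∑ χ : DirichletCharacter ℂ d, χ (b : ZMod d)⁻¹ *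
      ((∑ m ∈ MM M R, χ (m : ZMod d)) * ∑ p ∈ P, χ (p : ZMod d)) := by
    have e1 : (N : ℂ) = ∑ t ∈ (MM M R) ×ˢ P, if t.1 * t.2 ≡ b [MOD d] then (1 : ℂ) else 0 := by
      rw [hN, Finset.sum_boole]
    rw [e1, Finset.mul_sum]
    have e2 : ∀ t ∈ (MM M R) ×ˢ P, (d.totient : ℂ) *
        (if t.1 * t.2 ≡ b [MOD d] then (1 : ℂ) else 0) =
        ∑ χ : DirichletCharacter ℂ d, χ (b : ZMod d)⁻¹ * χ ((t.1 * t.2 : ℕ) : ZMod d) := by
      intro t _
      rw [DirichletCharacter.sum_char_inv_mul_char_eq ℂ hbu]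
      have e3 : ((b : ZMod d) = ((t.1 * t.2 : ℕ) : ZMod d)) ↔ t.1 * t.2 ≡ b [MOD d] := by
        rw [eq_comm, ZMod.natCast_eq_natCast_iff]
      by_cases h : t.1 * t.2 ≡ b [MOD d]
      · rw [if_pos h, if_pos (e3.2 h), mul_one]
      · rw [if_neg h, if_neg (fun h' => h (e3.1 h')), mul_zero]
    rw [Finset.sum_congr rfl e2, Finset.sum_comm]
    refine Finset.sum_congr rfl fun χ _ => ?_
    rw [← Finset.mul_sum, Finset.sum_mul_sum, Finset.sum_product]
    congr 1
    refine Finset.sum_congr rfl fun m _ => Finset.sum_congr rfl fun p _ => ?_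
    push_cast
    rw [map_mul]
  -- the trivial character
  set c : ℕ := ((Ioc M (2 * M)).filter (fun m => Nat.Coprime m (d * R))).card with hc
  have htriv : (1 : DirichletCharacter ℂ d) (b : ZMod d)⁻¹ *
      ((∑ m ∈ MM M R, (1 : DirichletCharacter ℂ d) (m : ZMod d)) *
        ∑ p ∈ P, (1 : DirichletCharacter ℂ d) (p : ZMod d)) = (c : ℂ) * P.card := by
    have e1 : (1 : DirichletCharacter ℂ d) (b : ZMod d)⁻¹ = 1 := by
      refine MulChar.one_apply ?_
      obtain ⟨u, hu⟩ := hbu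
      rw [← hu, ZMod.inv_coe_unit]
      exact (u⁻¹).isUnit
    have e2 : ∀ p ∈ P, (1 : DirichletCharacter ℂ d) (p : ZMod d) = 1 := fun p hp =>
      MulChar.one_apply ((ZMod.isUnit_iff_coprime p d).2 (hP p hp))
    have e3 : ∀ m : ℕ, (1 : DirichletCharacter ℂ d) (m : ZMod d) =
        if Nat.Coprime m d then 1 else 0 := by
      intro m
      by_cases h : Nat.Coprime m d
      · rw [if_pos h, MulChar.one_apply ((ZMod.isUnit_iff_coprime m d).2 h)]
      · rw [if_neg h, MulChar.map_nonunit _ (fun h' => h ((ZMod.isUnit_iff_coprime m d).1 h'))]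
    rw [e1, one_mul, Finset.sum_congr rfl e2, Finset.sum_congr rfl fun m _ => e3 m,
      Finset.sum_boole, Finset.sum_const, nsmul_eq_mul, mul_one]
    congr 3
    ext m
    simp only [MM, Finset.mem_filter, Nat.coprime_mul_iff_right]
    tauto
  -- separation of the trivial character
  have hsplit : ‖(d.totient : ℂ) * (N : ℂ) - (c : ℂ) * P.card‖ ≤ EC M R P d := by
    rw [horth, ← Finset.add_sum_erase _ _ (Finset.mem_univ (1 : DirichletCharacter ℂ d)), htriv,
      add_sub_cancel_left]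
    have e1 : (Finset.univ.erase (1 : DirichletCharacter ℂ d)) = nontriv d := by
      ext χ
      rw [mem_nontriv, Finset.mem_erase]
      simp
    rw [e1]
    refine (norm_sum_le _ _).trans ?_
    unfold EC
    refine Finset.sum_le_sum fun χ _ => ?_
    rw [norm_mul, norm_mul]
    have e2 := DirichletCharacter.norm_le_one χ (b : ZMod d)⁻¹
    have e3 : 0 ≤ ‖∑ m ∈ MM M R, χ (m : ZMod d)‖ * ‖∑ p ∈ P, χ (p : ZMod d)‖ := by positivity
    nlinarith
  have hreal : |(d.totient : ℝ) * N - c * P.card| ≤ EC M R P d := by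
    have e1 : (d.totient : ℂ) * (N : ℂ) - (c : ℂ) * P.card =
        (((d.totient : ℝ) * N - c * P.card : ℝ) : ℂ) := by push_cast; ring
    rw [e1, Complex.norm_real] at hsplit
    exact hsplit
  -- the count
  have hdRpos : 1 ≤ d * R := Nat.mul_pos hd hR
  have hcount := count_coprime M (d * R) hdRpos
  rw [← hc, Nat.totient_mul hdR, Nat.Coprime.card_divisors_mul hdR] at hcount
  push_cast at hcount
  have hd0 : (0 : ℝ) < d := by exact_mod_cast hd
  have hR0 : (0 : ℝ) < R := by exact_mod_cast hR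
  have hP0 : (0 : ℝ) ≤ P.card := by positivity
  have key : (N : ℝ) - (P.card : ℝ) * M * ((R.totient : ℝ) / R) / d =
      (1 / (d.totient : ℝ)) * ((d.totient : ℝ) * N - c * P.card) +
        (P.card : ℝ) / d.totient * ((c : ℝ) - M * ((d.totient * R.totient : ℝ) / (d * R))) := by
    field_simp
    ring
  rw [key]
  refine (abs_add_le _ _).trans (add_le_add ?_ ?_)
  · rw [abs_mul, abs_of_pos (one_div_pos.2 hφ)]
    exact mul_le_mul_of_nonneg_left hreal (one_div_pos.2 hφ).le
  · rw [abs_mul, abs_of_nonneg (div_nonneg hP0 hφ.le)]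
    refine (mul_le_mul_of_nonneg_left hcount (div_nonneg hP0 hφ.le)).trans (le_of_eq ?_)
    ring

end Pool.Agent.Helper6.ER
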